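import Pool.Agent.Helper58.DH.Goals2

/-!
# Packet DH F_PAR2: the theorem for the parameters of the regime
-/

set_option autoImplicit false

namespace Pool.Agent.Helper74.DH

open Pool.Agent.Helper58.DH Pool.Agent.Helper58.DG

theorem abs_sg_le (r : ℝ) : |sg r| ≤ 1 := by
  unfold sg
  rcases lt_trichotomy r 0 with h | h | h
  · simp [h]
  · simp [h]
  · simp [h]

theorem abs_sg_eq {r : ℝ} (h : r ≠ 0) : |sg r| = 1 := by
  unfold sg
  rcases lt_trichotomy r 0 with h1 | h1 | h1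
  · simp [h1]
  · exact absurd h1 h
  · simp [h1]

theorem ne_zero_of_sg {r : ℝ} (h : sg r = 1) : r ≠ 0 := by
  rintro rfl
  simp [sg] at h

theorem two_le {α : Type} [DecidableEq α] {Z K : Finset α} (g : α → ℤ) (hg : ∀ w, |g w| ≤ 1)
    (hKZ : K ⊆ Z) (h0 : ∑ w ∈ Z, g w = 0) (hK : |∑ w ∈ K, g w| = 2) : 2 ≤ (Z \ K).card := by
  have hsplit := Finset.sum_sdiff (f := g) hKZ
  rw [h0] at hsplit
  have h1 : |∑ w ∈ Z \ K, g w| ≤ ((Z \ K).card : ℤ) := by
    refine (Finset.abs_sum_le_sum_abs _ _).trans ?_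
    refine (Finset.sum_le_sum fun w _ => hg w).trans ?_
    simp
  have h2 : |∑ w ∈ Z \ K, g w| = 2 := by
    have h3 : ∑ w ∈ Z \ K, g w = -∑ w ∈ K, g w := by linarith
    rw [h3, abs_neg, hK]
  rw [h2] at h1
  exact_mod_cast h1

theorem f_par2 (hD : H_DEG2) (hK : K_ALL) (hE : L_EQV) (hS : L_SGN) : F_PAR2 := by
  classical
  intro P Q M E hR hpq
  obtain ⟨hP, hQ, hM, hE0, hsum, hMQ, hEQ, h30⟩ := hR
  have hR : Reg30 P Q M E := ⟨hP, hQ, hM, hE0, hsum, hMQ, hEQ, h30⟩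
  have hPE : 0 < P + E := by linarith
  have hQE : 0 < Q + E := by linarith
  obtain ⟨hall, hcard⟩ := hK P Q M E hP hQ hM hPE hQE hsum
  have hsum' : 2 * Q + 2 * P + M + 2 * E = 1 := by linarith
  obtain ⟨x1, hx1⟩ : ∃ x, x = kc P Q M E := ⟨_, rfl⟩
  obtain ⟨x2, hx2⟩ : ∃ x, x = s2 (kc Q P M E) := ⟨_, rfl⟩
  have hsg2 : sg (jac (PC P Q M E 1) x2) = 1 := by
    rw [hx2, (hE Q P M E 1 (kc Q P M E)).2]
    exact hS Q P M E hQ hP hM hQE hPE hsum' hpq
  have hsg2' : sg (jac (PC P Q M E 1) (s1 x2)) = 1 := by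
    rw [(hE P Q M E 1 x2).1, hsg2]
  have hjac1 : jac (PC P Q M E 1) (s1 x1) = jac (PC P Q M E 1) x1 := (hE P Q M E 1 x1).1
  have e14 : x1 4 = P + 2 * Q + M + E := by rw [hx1]; rfl
  have e15 : x1 5 = Q + M + E := by rw [hx1]; rfl
  have e24 : x2 4 = P + M + E := by rw [hx2]; rfl
  have e25 : x2 5 = Q + 2 * P + M + E := by rw [hx2]; rfl
  have e14' : (s1 x1) 4 = x1 4 := rfl
  have e15' : (s1 x1) 5 = x1 5 := rfl
  have e24' : (s1 x2) 4 = x2 4 := rfl
  have e25' : (s1 x2) 5 = x2 5 := rfl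
  have l1 : x1 5 < x1 4 := by rw [e14, e15]; linarith
  have l2 : x2 4 < x2 5 := by rw [e24, e25]; linarith
  rw [← hx1, ← hx2] at hcard
  have hall' : ∀ w, SolC P Q M E 1 w ∧ KC w ↔ w = x1 ∨ w = s1 x1 ∨ w = x2 ∨ w = s1 x2 := by
    intro w
    rw [hall w, hx1, hx2]
  have hne : x1 ≠ s1 x1 ∧ x2 ≠ s1 x2 := by
    constructor
    · intro h
      rw [← h] at hcard
      have h1 : ({x1, x1, x2, s1 x2} : Finset (Fin 6 → ℝ)).card ≤ 3 := by
        rw [Finset.insert_eq_of_mem (Finset.mem_insert_self _ _)]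
        exact Finset.card_le_three
      omega
    · intro h
      rw [← h] at hcard
      have h1 : ({x1, s1 x1, x2, x2} : Finset (Fin 6 → ℝ)).card ≤ 3 := by
        have h2 : ({x2, x2} : Finset (Fin 6 → ℝ)) = {x2} :=
          Finset.insert_eq_of_mem (Finset.mem_singleton_self _)
        rw [h2]
        exact Finset.card_le_three
      omega
  have hmem2 : ∀ w, w ∈ ({x2, s1 x2} : Finset (Fin 6 → ℝ)) ↔
      (SolC P Q M E 1 w ∧ KC w) ∧ w 4 < w 5 := by
    intro w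
    rw [hall' w, Finset.mem_insert, Finset.mem_singleton]
    constructor
    · rintro (rfl | rfl)
      · exact ⟨Or.inr (Or.inr (Or.inl rfl)), l2⟩
      · exact ⟨Or.inr (Or.inr (Or.inr rfl)), by rw [e24', e25']; exact l2⟩
    · rintro ⟨rfl | rfl | rfl | rfl, h⟩
      · exact absurd h (by linarith)
      · rw [e14', e15'] at h
        exact absurd h (by linarith)
      · exact Or.inl rfl
      · exact Or.inr rfl
  have hmem1 : ∀ w, w ∈ ({x1, s1 x1} : Finset (Fin 6 → ℝ)) ↔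
      (SolC P Q M E 1 w ∧ KC w) ∧ w 5 < w 4 := by
    intro w
    rw [hall' w, Finset.mem_insert, Finset.mem_singleton]
    constructor
    · rintro (rfl | rfl)
      · exact ⟨Or.inl rfl, l1⟩
      · exact ⟨Or.inr (Or.inl rfl), by rw [e14', e15']; exact l1⟩
    · rintro ⟨rfl | rfl | rfl | rfl, h⟩
      · exact Or.inl rfl
      · exact Or.inr rfl
      · exact absurd h (by linarith)
      · rw [e24', e25'] at h
        exact absurd h (by linarith)
  have hsum2 : ∑ w ∈ ({x2, s1 x2} : Finset (Fin 6 → ℝ)), sg (jac (PC P Q M E 1) w) = 2 := by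
    rw [Finset.sum_pair hne.2, hsg2, hsg2']
    norm_num
  refine ⟨?_, ?_⟩
  · by_contra hno
    push Not at hno
    have h0 := hD P Q M E {x2, s1 x2} hR (Or.inl fun w =>
      ⟨fun h => ⟨((hmem2 w).1 h).1.1, ((hmem2 w).1 h).2⟩,
        fun h => (hmem2 w).2 ⟨⟨h.1, hno w h.1⟩, h.2⟩⟩) (by
      intro w hw
      rw [Finset.mem_insert, Finset.mem_singleton] at hw
      rcases hw with rfl | rfl
      · exact ne_zero_of_sg hsg2
      · exact ne_zero_of_sg hsg2')
    rw [hsum2] at h0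
    exact absurd h0 (by norm_num)
  · intro Z hZ hjac
    have hx1Z : x1 ∈ Z := (hZ x1).2 ((hall' x1).2 (Or.inl rfl)).1
    have hsum1 : |∑ w ∈ ({x1, s1 x1} : Finset (Fin 6 → ℝ)), sg (jac (PC P Q M E 1) w)| = 2 := by
      rw [Finset.sum_pair hne.1, hjac1, ← two_mul, abs_mul, abs_sg_eq (hjac x1 hx1Z)]
      norm_num
    have h2 := hD P Q M E (Z.filter fun w => w 4 < w 5) hR
      (Or.inl fun w => by rw [Finset.mem_filter, hZ w])
      (fun w hw => hjac w (Finset.mem_filter.1 hw).1)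
    have h1 := hD P Q M E (Z.filter fun w => w 5 < w 4) hR
      (Or.inr fun w => by rw [Finset.mem_filter, hZ w])
      (fun w hw => hjac w (Finset.mem_filter.1 hw).1)
    have c2 := two_le (K := {x2, s1 x2}) (fun w => sg (jac (PC P Q M E 1) w))
      (fun w => abs_sg_le _)
      (fun w hw => Finset.mem_filter.2 ⟨(hZ w).2 ((hmem2 w).1 hw).1.1, ((hmem2 w).1 hw).2⟩)
      h2 (by rw [hsum2]; rfl)
    have c1 := two_le (K := {x1, s1 x1}) (fun w => sg (jac (PC P Q M E 1) w))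
      (fun w => abs_sg_le _)
      (fun w hw => Finset.mem_filter.2 ⟨(hZ w).2 ((hmem1 w).1 hw).1.1, ((hmem1 w).1 hw).2⟩)
      h1 hsum1
    have hdisj : Disjoint ((Z.filter fun w => w 4 < w 5) \ {x2, s1 x2})
        ((Z.filter fun w => w 5 < w 4) \ {x1, s1 x1}) := by
      refine Finset.disjoint_left.2 fun w hw hw' => ?_
      rw [Finset.mem_sdiff, Finset.mem_filter] at hw hw'
      exact absurd hw.1.2 (by have := hw'.1.2; linarith)
    refine ⟨((Z.filter fun w => w 4 < w 5) \ {x2, s1 x2}) ∪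
      ((Z.filter fun w => w 5 < w 4) \ {x1, s1 x1}), ?_, ?_, ?_⟩
    · intro w hw
      rw [Finset.mem_union, Finset.mem_sdiff, Finset.mem_sdiff, Finset.mem_filter,
        Finset.mem_filter] at hw
      rcases hw with hw | hw
      · exact hw.1.1
      · exact hw.1.1
    · rw [Finset.card_union_of_disjoint hdisj]
      omega
    · intro w hw hkc
      rw [Finset.mem_union, Finset.mem_sdiff, Finset.mem_sdiff, Finset.mem_filter,
        Finset.mem_filter] at hw
      rcases hw with hw | hw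
      · exact hw.2 ((hmem2 w).2 ⟨⟨(hZ w).1 hw.1.1, hkc⟩, hw.1.2⟩)
      · exact hw.2 ((hmem1 w).2 ⟨⟨(hZ w).1 hw.1.1, hkc⟩, hw.1.2⟩)

end Pool.Agent.Helper74.DH
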