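import Pool.Agent.Helper58.DH.Goals
import Pool.Agent.Helper90.DG.K_EQV

/-!
# Packet L_EQV of project DH: equivariance of the Jacobian determinant
-/

set_option autoImplicit false

namespace Pool.Agent.Helper74.DH

open Pool.Agent.Helper83.EIN Pool.Agent.Helper58.DG Pool.Agent.Helper58.DH

theorem s1_eq (w : Fin 6 → ℝ) : s1 w = Pool.Agent.Helper90.DG.P (Equiv.swap 0 1) w := by
  rw [Pool.Agent.Helper90.DG.P_apply]
  funext k
  fin_cases k <;> simp [s1, Equiv.swap_apply_def]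

theorem s2_eq (w : Fin 6 → ℝ) :
    s2 w = Pool.Agent.Helper90.DG.P (Equiv.swap 2 3 * Equiv.swap 4 5) w := by
  rw [Pool.Agent.Helper90.DG.P_apply]
  funext k
  fin_cases k <;> simp [s2, Equiv.swap_apply_def]

theorem pc_s1 (P Q M E B : ℝ) (w : Fin 6 → ℝ) : PC P Q M E B (s1 w) = s1 (PC P Q M E B w) := by
  funext k
  fin_cases k <;> simp [PC, s1, -mul_eq_mul_left_iff, -mul_eq_mul_right_iff] <;> ring

theorem pc_s2 (P Q M E B : ℝ) (w : Fin 6 → ℝ) : PC Q P M E B (s2 w) = s2 (PC P Q M E B w) := by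
  funext k
  fin_cases k <;> simp [PC, s2, -mul_eq_mul_left_iff, -mul_eq_mul_right_iff, -add_left_inj, -add_right_inj] <;> ring

theorem l_eqv : Pool.Agent.Helper58.DH.L_EQV := by
  intro P Q M E B w
  refine ⟨?_, ?_⟩
  · rw [s1_eq]
    exact Pool.Agent.Helper90.DG.jac_conj _ _ _ (fun v => by rw [← s1_eq, ← s1_eq, pc_s1]) w
  · rw [s2_eq]
    exact Pool.Agent.Helper90.DG.jac_conj _ _ _ (fun v => by rw [← s2_eq, ← s2_eq, pc_s2]) w

end Pool.Agent.Helper74.DH
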